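import Pool.Agent.PCO.StmtsA
import Pool.Agent.Helper27_NTS.NNG
import Pool.Agent.Helper56_NTS.EXV

/-!
# NTS squad, row TVX: the vertices of a top simplex are extreme (from EXV)
-/

set_option autoImplicit false

namespace Pool.Agent.PCO.H6

open Pool.Agent.PFS Pool.Agent.PFJ

/-- **TVX**. -/
theorem tvx : TvxStmt := by
  intro n C Γ h K hK hmax w hw i
  exact Pool.Agent.NTS.H56.exv Pool.Agent.NTS.H27.nng n C Γ h K (by omega) hmax w hw i

end Pool.Agent.PCO.H6
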